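import Mathlib
import Pool.Agent.W223.AK.Basic

/-!
# AK-EST, part 1: pairs of ideals with constrained quotient
-/

set_option autoImplicit false
set_option linter.unusedSectionVars false

namespace Pool.Agent.W358.AK

open NumberField IsDedekindDomain Finset Pool.Agent.H691R3 Pool.Agent.W223.AK

variable {K : Type} [Field K] [NumberField K]

/-- counting along fibres -/
theorem fib_bound {α β : Type*} [DecidableEq β] (s : Finset α) (f : α → β) (B : ℝ)
    (h : ∀ b ∈ s.image f, ((s.filter (fun a => f a = b)).card : ℝ) ≤ B) :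
    (s.card : ℝ) ≤ (s.image f).card * B := by
  have h1 : (s.card : ℝ) = ∑ b ∈ s.image f, ((s.filter (fun a => f a = b)).card : ℝ) := by
    exact_mod_cast Finset.card_eq_sum_card_image f s
  rw [h1]
  refine (Finset.sum_le_sum h).trans (le_of_eq ?_)
  rw [Finset.sum_const, nsmul_eq_mul]

/-- indicator of the primes of exponent `i + 1` -/
noncomputable def ind (i : ℕ) (a : Idl K) : Idl K :=
  a.mapRange (fun k => if k = i + 1 then 1 else 0) (by simp)

theorem ind_apply (i : ℕ) (a : Idl K) (v : Pr K) : ind i a v = if a v = i + 1 then 1 else 0 := by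
  unfold ind
  rw [Finsupp.mapRange_apply]

theorem ind_le (i : ℕ) (a : Idl K) : ind i a ≤ a := by
  intro v
  rw [ind_apply]
  split_ifs with h
  · omega
  · exact Nat.zero_le _

theorem len_ind (i : ℕ) (a : Idl K) : len (ind i a) = rl (ex a {i + 1}) := by
  classical
  have hs : (ind i a).support = (ex a {i + 1}).support := by
    ext v
    rw [ex_support, Finsupp.mem_support_iff, ind_apply]
    constructor
    · intro h
      split_ifs at h with h1
      · exact ⟨by omega, by rw [h1]; rfl⟩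
      · exact absurd rfl h
    · rintro ⟨_, h2⟩
      have h3 : a v = i + 1 := h2
      rw [if_pos h3]
      exact one_ne_zero
  unfold len rl
  rw [hs]
  refine Finset.sum_congr rfl fun v hv => ?_
  rw [ex_support] at hv
  have h3 : a v = i + 1 := hv.2
  rw [ind_apply, if_pos h3]
  simp

theorem decomp (n : ℕ) (a : Idl K) :
    ∑ i : Fin n, ((i : ℕ) + 1) • ind i a + ex a {m | n < m} = a := by
  classical
  ext v
  rw [Finsupp.add_apply, Finsupp.finsetSum_apply, ex_apply]
  have h1 : ∀ i : Fin n, (((i : ℕ) + 1) • ind (i : ℕ) a) v =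
      if a v = (i : ℕ) + 1 then (i : ℕ) + 1 else 0 := by
    intro i
    rw [Finsupp.smul_apply, ind_apply]
    split_ifs <;> simp
  simp only [h1]
  by_cases h : n < a v
  · rw [if_pos (show a v ∈ {m | n < m} from h), Finset.sum_eq_zero, zero_add]
    intro i _
    rw [if_neg]
    have := i.2
    omega
  · rw [if_neg (show a v ∉ {m | n < m} from h), add_zero]
    rcases Nat.eq_zero_or_pos (a v) with h0 | h0
    · rw [h0]
      refine Finset.sum_eq_zero fun i _ => ?_
      rw [if_neg (by omega)]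
    · rw [Finset.sum_eq_single ⟨a v - 1, by omega⟩]
      · simp only
        rw [if_pos (by omega)]
        omega
      · intro i _ hi
        rw [if_neg]
        intro h2
        apply hi
        apply Fin.ext
        simp only
        omega
      · intro h2
        exact absurd (Finset.mem_univ _) h2

theorem gen_decomp (ϖ : Pr K → K) (n : ℕ) (a : Idl K) :
    gen ϖ a = (∏ i : Fin n, gen ϖ (ind i a) ^ ((i : ℕ) + 1)) * gen ϖ (ex a {m | n < m}) := by
  conv_lhs => rw [← decomp n a]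
  rw [gen_add, gen_sum]
  congr 1
  exact Finset.prod_congr rfl fun i _ => gen_nsmul _ _ _

/-- the conditions on one ideal -/
structure Gd (S : Finset (Pr K)) (f : Idl K) (n : ℕ) (ν : Fin n → ℝ) (τ X : ℝ) (a : Idl K) :
    Prop where
  off : OffS S a
  cop : Cop a f
  len : len a ≤ X
  cls : ∀ i : Fin n, rl (ex a {(i : ℕ) + 1}) ≤ ν i
  top : rl (ex a {m | n < m}) ≤ τ

theorem sa_bound {S : Finset (Pr K)} {ϖ : Pr K → K} {C : ℝ} (hU : Unif S ϖ C)
    (hJ : StmtJK S ϖ) (hC : StmtCNT K) (n : ℕ) (hn : SGood S n) (ε A : ℝ) (hε : 0 < ε)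
    (hA : 0 ≤ A) : ∃ D : ℝ, 0 < D ∧
    ∀ (X : ℝ) (f : Idl K) (V : Finset (Pl K)) (σ : Pl K → ℝ) (ν : Fin n → ℝ) (τ : ℝ)
      (Q : Finset (Idl K × Idl K)),
    0 ≤ X → OffS S f → len f ≤ X → V ⊆ Spl S → (∀ v ∈ V, 0 ≤ σ v) → (∀ i, 0 ≤ ν i) →
    ∑ i, ν i ≤ X →
    (∀ t ∈ Q, Gd S f n ν τ X t.1 ∧ Gd S f n ν τ X t.2 ∧
      Cl f V σ A (gen ϖ t.1 / gen ϖ t.2)) →
    (Q.card : ℝ) ≤ D * Real.exp (ε * X + 2 * τ + ∑ i, ν i) *
      (1 + Real.exp (3 / 2 * ∑ i, ν i - lenM f V σ)) := by
  classical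
  obtain ⟨D1, hD1, h1⟩ := hC (ε / 4) (by positivity)
  obtain ⟨D2, hD2, h2⟩ := hJ n hn (ε / 2) A (by positivity) hA
  refine ⟨D1 ^ 2 * D2, by positivity, ?_⟩
  intro X f V σ ν τ Q hX hf hlf hV hσ hν hνX hQ
  set T : Finset (Idl K) := (Q.image fun t => ex t.1 {m | n < m}) ∪
    (Q.image fun t => ex t.2 {m | n < m}) with hT
  have hTc : (T.card : ℝ) ≤ D1 * Real.exp (τ + ε / 4 * X) := by
    refine h1 X τ T hX ?_
    intro a ha
    rw [hT, Finset.mem_union, Finset.mem_image, Finset.mem_image] at ha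
    rcases ha with ⟨t, ht, rfl⟩ | ⟨t, ht, rfl⟩
    · obtain ⟨g1, _, _⟩ := hQ t ht
      exact ⟨g1.top, (len_mono (ex_le _ _)).trans g1.len⟩
    · obtain ⟨_, g1, _⟩ := hQ t ht
      exact ⟨g1.top, (len_mono (ex_le _ _)).trans g1.len⟩
  set φ : Idl K × Idl K → Idl K × Idl K := fun t => (ex t.1 {m | n < m}, ex t.2 {m | n < m}) with hφ
  have himg : ((Q.image φ).card : ℝ) ≤ (D1 * Real.exp (τ + ε / 4 * X)) ^ 2 := by
    have h3 : Q.image φ ⊆ T ×ˢ T := by
      intro b hb
      rw [Finset.mem_image] at hb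
      obtain ⟨t, ht, rfl⟩ := hb
      rw [Finset.mem_product]
      exact ⟨Finset.mem_union_left _ (Finset.mem_image.mpr ⟨t, ht, rfl⟩),
        Finset.mem_union_right _ (Finset.mem_image.mpr ⟨t, ht, rfl⟩)⟩
    have h4 : ((Q.image φ).card : ℝ) ≤ (T.card : ℝ) * T.card := by
      have := Finset.card_le_card h3
      rw [Finset.card_product] at this
      exact_mod_cast this
    refine h4.trans ?_
    rw [sq]
    exact mul_le_mul hTc hTc (Nat.cast_nonneg _) (by positivity)
  have hfib : ∀ b ∈ Q.image φ, ((Q.filter (fun t => φ t = b)).card : ℝ) ≤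
      D2 * Real.exp (ε / 2 * X + ∑ i, ν i) * (1 + Real.exp (3 / 2 * ∑ i, ν i - lenM f V σ)) := by
    intro b hb
    set ψ : Idl K × Idl K → (Fin n → Idl K) × (Fin n → Idl K) :=
      fun t => (fun i => ind i t.1, fun i => ind i t.2) with hψ
    have hinj : Set.InjOn ψ (Q.filter (fun t => φ t = b)) := by
      intro t ht t' ht' htt
      rw [Finset.mem_coe, Finset.mem_filter] at ht ht'
      have e1 : φ t = φ t' := ht.2.trans ht'.2.symm
      rw [hφ] at e1
      rw [hψ] at htt
      simp only [Prod.mk.injEq] at e1 htt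
      refine Prod.ext ?_ ?_
      · rw [← decomp n t.1, ← decomp n t'.1, e1.1]
        congr 1
        exact Finset.sum_congr rfl fun i _ => by rw [congrFun htt.1 i]
      · rw [← decomp n t.2, ← decomp n t'.2, e1.2]
        congr 1
        exact Finset.sum_congr rfl fun i _ => by rw [congrFun htt.2 i]
    rw [← Finset.card_image_of_injOn hinj]
    refine h2 X f V σ ν (gen ϖ b.1 / gen ϖ b.2) _ hX hf hlf hV hσ hν hνX
      (div_ne_zero (gen_ne hU _) (gen_ne hU _)) ?_
    intro u hu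
    rw [Finset.mem_image] at hu
    obtain ⟨t, ht, rfl⟩ := hu
    rw [Finset.mem_filter] at ht
    obtain ⟨g1, g2, g3⟩ := hQ t ht.1
    refine ⟨fun i => ⟨g1.off.mono (ind_le _ _), g1.cop.mono_left (ind_le _ _), ?_⟩,
      fun i => ⟨g2.off.mono (ind_le _ _), g2.cop.mono_left (ind_le _ _), ?_⟩, ?_⟩
    · exact (len_ind _ _).le.trans (g1.cls i)
    · exact (len_ind _ _).le.trans (g2.cls i)
    · have e2 : gen ϖ b.1 / gen ϖ b.2 * ∏ i : Fin n, (gen ϖ ((ψ t).1 i) / gen ϖ ((ψ t).2 i)) ^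
          ((i : ℕ) + 1) = gen ϖ t.1 / gen ϖ t.2 := by
        rw [gen_decomp ϖ n t.1, gen_decomp ϖ n t.2, ← ht.2]
        simp only [hφ, hψ, div_pow, Finset.prod_div_distrib]
        rw [div_mul_div_comm, mul_comm (gen ϖ (ex t.1 _)), mul_comm (gen ϖ (ex t.2 _))]
      rw [e2]
      exact g3
  refine (fib_bound Q φ _ hfib).trans ?_
  have h5 : (0 : ℝ) ≤ D2 * Real.exp (ε / 2 * X + ∑ i, ν i) *
    (1 + Real.exp (3 / 2 * ∑ i, ν i - lenM f V σ)) := by positivity
  refine (mul_le_mul_of_nonneg_right himg h5).trans (le_of_eq ?_)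
  have e3 : Real.exp (ε * X + 2 * τ + ∑ i, ν i) =
      Real.exp (τ + ε / 4 * X) ^ 2 * Real.exp (ε / 2 * X + ∑ i, ν i) := by
    rw [sq, ← Real.exp_add, ← Real.exp_add]
    congr 1
    ring
  rw [e3]
  ring

end Pool.Agent.W358.AK
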