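import Mathlib
import Pool.Agent.W223.AK.Point
import Pool.Agent.W358.AK.EST1

/-!
# AK-EST: energy bound for a cell
-/

set_option autoImplicit false
set_option linter.unusedSectionVars false

namespace Pool.Agent.W358.AK

open NumberField IsDedekindDomain Finset Pool.Agent.H691R3 Pool.Agent.W223.AK

variable {K : Type} [Field K] [NumberField K]

theorem log_two_le : Real.log 2 ≤ 7 / 10 := by
  have := Real.log_two_lt_d9
  linarith

theorem log_four_le : Real.log 4 ≤ 7 / 5 := by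
  have h : (4 : ℝ) = 2 ^ 2 := by norm_num
  rw [h, Real.log_pow]
  have := log_two_le
  push_cast
  linarith

/-- the good special places -/
noncomputable def VV' (S : Finset (Pr K)) (σ : Pl K → ℝ) : Finset (Pl K) :=
  (Spl S).filter fun v => 5 ≤ σ v

theorem lenM_ge (S : Finset (Pr K)) (f : Idl K) (σ : Pl K → ℝ) :
    len f + ∑ v ∈ Spl S, σ v - 5 * (Spl S).card ≤ lenM f (VV' S σ) σ := by
  unfold lenM VV'
  have h1 := Finset.sum_filter_add_sum_filter_not (Spl S) (fun v => 5 ≤ σ v) σ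
  have h2 : ∑ v ∈ (Spl S).filter (fun v => ¬ 5 ≤ σ v), σ v ≤ 5 * (Spl S).card := by
    calc ∑ v ∈ (Spl S).filter (fun v => ¬ 5 ≤ σ v), σ v
        ≤ ∑ v ∈ (Spl S).filter (fun v => ¬ 5 ≤ σ v), (5 : ℝ) := by
          refine Finset.sum_le_sum fun v hv => ?_
          rw [Finset.mem_filter] at hv
          exact (not_le.mp hv.2).le
      _ = ((Spl S).filter (fun v => ¬ 5 ≤ σ v)).card * 5 := by
          rw [Finset.sum_const, nsmul_eq_mul]
      _ ≤ (Spl S).card * 5 := by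
          have : (((Spl S).filter (fun v => ¬ 5 ≤ σ v)).card : ℝ) ≤ (Spl S).card := by
            exact_mod_cast Finset.card_filter_le _ _
          linarith
      _ = 5 * (Spl S).card := by ring
  linarith

/-- the quotient of two forms is close to `1` -/
theorem yy_Cl {S : Finset (Pr K)} {x : K} {P : Fin 3 → Idl K} (hx : Pt x) (hP : IsP S x P)
    {p q r : Fin 3} (hpq : p ≠ q) (hqr : q ≠ r) (hpr : p ≠ r) (F : Set ℕ) {σ : Pl K → ℝ}
    (hσ : ∀ v ∈ Spl S, |lm v r x - σ v| ≤ 1) :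
    Cl (ex (P r) F) (VV' S σ) σ 3 (yy p q x) := by
  classical
  constructor
  · intro v hv
    have h1 : v ∈ (ex (P r) F).support := Finsupp.mem_support_iff.mpr hv
    rw [ex_support] at h1
    rw [yy_cong hx hP hpq hqr hpr h1.1, ex_apply, if_pos h1.2]
  · intro v hv
    unfold VV' at hv
    rw [Finset.mem_filter] at hv
    have h1 := hσ v hv.1
    rw [abs_le] at h1
    have h2 := mt_le_two v
    have h3 := mt_pos v
    have h4 := log_four_le
    have h5 := log_two_le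
    have h6 : 0 ≤ Real.log 4 := Real.log_nonneg (by norm_num)
    have h7 : 0 ≤ Real.log 2 := Real.log_nonneg (by norm_num)
    have h8 : mt v * Real.log 4 ≤ 2 * (7 / 5) := mul_le_mul h2 h4 h6 (by norm_num)
    have h9 : mt v * Real.log 2 ≤ 2 * (7 / 10) := mul_le_mul h2 h5 h7 (by norm_num)
    refine (yy_close hx hpq hqr hpr (by linarith [h1.1, hv.2])).trans ?_
    rw [Real.exp_le_exp]
    linarith [h1.1]

theorem sa_class {S : Finset (Pr K)} {ϖ : Pr K → K} {C : ℝ} (hU : Unif S ϖ C)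
    (hJ : StmtJK S ϖ) (hC : StmtCNT K) (n : ℕ) (hn : SGood S n) (ε : ℝ) (hε : 0 < ε) :
    ∃ D : ℝ, 0 < D ∧ ∀ (X : ℝ) (E : Finset K) (P : K → Fin 3 → Idl K) (p q r : Fin 3) (F : Set ℕ)
      (ν : Fin n → ℝ) (τ Λ : ℝ) (σ : Pl K → ℝ) (s : K) (f : Idl K) (Q : Finset (Idl K × Idl K)),
    0 ≤ X → (∀ x ∈ E, Pt x ∧ IsP S x (P x) ∧ ht x ≤ X) → p ≠ q → q ≠ r → p ≠ r →
    (∀ i, 0 ≤ ν i) → ∑ i, ν i ≤ X →
    (∀ x ∈ E, ∀ i : Fin n, rl (ex (P x p) {(i : ℕ) + 1}) ≤ ν i) →
    (∀ x ∈ E, rl (ex (P x p) {m | n < m}) ≤ τ) →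
    (∀ x ∈ E, ∀ v ∈ Spl S, |lm v r x - σ v| ≤ 1) →
    (∀ x ∈ E, Λ ≤ len (ex (P x r) F) + ∑ v ∈ Spl S, σ v) →
    (∀ x ∈ E, ex (P x r) F = f) →
    (∀ x ∈ E, yy p q x * (gen ϖ (P x q) / gen ϖ (P x p)) = s) →
    (∀ t ∈ Q, ∃ x ∈ E, ∃ x' ∈ E, t.1 = P x p ∧ t.2 = P x' p ∧ P x q = P x' q) →
    (Q.card : ℝ) ≤ D * Real.exp (ε * X) *
      Real.exp (2 * τ + ∑ i, ν i + max 0 (3 / 2 * ∑ i, ν i - Λ)) := by
  classical
  obtain ⟨D3, hD3, h3⟩ := sa_bound hU hJ hC n hn ε 6 hε (by norm_num)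
  set N : ℝ := ((Spl S).card : ℝ) with hN
  refine ⟨D3 * Real.exp (ε * cS S) * (2 * Real.exp (5 * N)), by positivity, ?_⟩
  intro X E P p q r F ν τ Λ σ s f Q hX hE hpq hqr hpr hν hνX hcl htop hσ hΛ hf hs hQ
  rcases Q.eq_empty_or_nonempty with hQ0 | ⟨t0, ht0⟩
  · rw [hQ0]
    simp only [Finset.card_empty, Nat.cast_zero]
    positivity
  obtain ⟨x0, hx0, _⟩ := hQ t0 ht0
  have hcs := cS_nonneg S
  have hfo : OffS S f := by
    rw [← hf x0 hx0]
    exact ((hE x0 hx0).2.1.off r).ex F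
  have hlen : ∀ x ∈ E, ∀ l, len (P x l) ≤ X + cS S := by
    intro x hx l
    have h1 := len_le (hE x hx).1 (hE x hx).2.1 l
    have h2 := (hE x hx).2.2
    linarith
  have hlf : len f ≤ X + cS S := by
    rw [← hf x0 hx0]
    exact (len_mono (ex_le _ _)).trans (hlen x0 hx0 r)
  have hlow : Λ - 5 * N ≤ lenM f (VV' S σ) σ := by
    have h1 := lenM_ge S f σ
    have h2 := hΛ x0 hx0
    rw [hf x0 hx0] at h2
    linarith
  have hgd : ∀ x ∈ E, Gd S f n ν τ (X + cS S) (P x p) := by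
    intro x hx
    refine ⟨(hE x hx).2.1.off p, ?_, hlen x hx p, hcl x hx, htop x hx⟩
    rw [← hf x hx]
    exact (((hE x hx).2.1.cop hpr).symm.mono_left (ex_le _ _)).symm
  have hV : ∀ v ∈ VV' S σ, v ∈ Spl S ∧ 5 ≤ σ v := by
    intro v hv
    unfold VV' at hv
    rwa [Finset.mem_filter] at hv
  have h4 := h3 (X + cS S) f (VV' S σ) σ ν τ Q (by linarith) hfo hlf
    (fun v hv => (hV v hv).1) (fun v hv => by linarith [(hV v hv).2]) hν (by linarith) ?_
  swap
  · intro t ht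
    obtain ⟨x, hx, x', hx', e1, e2, e3⟩ := hQ t ht
    rw [e1, e2]
    refine ⟨hgd x hx, hgd x' hx', ?_⟩
    have c1 := yy_Cl (hE x hx).1 (hE x hx).2.1 hpq hqr hpr F (hσ x hx)
    have c2 := yy_Cl (hE x' hx').1 (hE x' hx').2.1 hpq hqr hpr F (hσ x' hx')
    rw [hf x hx] at c1
    rw [hf x' hx'] at c2
    have c3 := Cl_div c1 c2 (fun v hv => by
      have h2 := mt_le_two v
      have h5 := log_two_le
      have h7 : 0 ≤ Real.log 2 := Real.log_nonneg (by norm_num)
      have h9 : mt v * Real.log 2 ≤ 2 * (7 / 10) := mul_le_mul h2 h5 h7 (by norm_num)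
      linarith [(hV v hv).2])
    have e4 : gen ϖ (P x p) / gen ϖ (P x' p) = yy p q x / yy p q x' := by
      have g1 := gen_ne hU (P x p)
      have g2 := gen_ne hU (P x' p)
      have g3 := gen_ne hU (P x q)
      have g4 := yy_ne (hE x hx).1 p q
      have g5 := yy_ne (hE x' hx').1 p q
      have s1 := hs x hx
      have s2 := hs x' hx'
      rw [← e3, ← s1] at s2
      field_simp at s2
      rw [div_eq_div_iff g2 g5]
      linear_combination s2
    rw [e4]
    have e5 : (3 : ℝ) + 3 = 6 := by norm_num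
    rwa [e5] at c3
  refine h4.trans ?_
  have h5 : 1 + Real.exp (3 / 2 * ∑ i, ν i - lenM f (VV' S σ) σ) ≤
      2 * Real.exp (5 * N) * Real.exp (max 0 (3 / 2 * ∑ i, ν i - Λ)) := by
    have hN0 : 0 ≤ N := Nat.cast_nonneg _
    have a1 : (1 : ℝ) ≤ Real.exp (5 * N) * Real.exp (max 0 (3 / 2 * ∑ i, ν i - Λ)) := by
      rw [← Real.exp_add]
      refine Real.one_le_exp ?_
      have := le_max_left 0 (3 / 2 * ∑ i, ν i - Λ)
      linarith
    have a2 : Real.exp (3 / 2 * ∑ i, ν i - lenM f (VV' S σ) σ) ≤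
        Real.exp (5 * N) * Real.exp (max 0 (3 / 2 * ∑ i, ν i - Λ)) := by
      rw [← Real.exp_add, Real.exp_le_exp]
      have := le_max_right 0 (3 / 2 * ∑ i, ν i - Λ)
      linarith
    linarith
  refine (mul_le_mul_of_nonneg_left h5 (by positivity)).trans (le_of_eq ?_)
  have e6 : Real.exp (ε * (X + cS S) + 2 * τ + ∑ i, ν i) =
      Real.exp (ε * cS S) * Real.exp (ε * X) * Real.exp (2 * τ + ∑ i, ν i) := by
    rw [← Real.exp_add, ← Real.exp_add]
    congr 1
    ring
  have e7 : Real.exp (2 * τ + ∑ i, ν i + max 0 (3 / 2 * ∑ i, ν i - Λ)) =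
      Real.exp (2 * τ + ∑ i, ν i) * Real.exp (max 0 (3 / 2 * ∑ i, ν i - Λ)) := by
    rw [← Real.exp_add]
  rw [e6, e7]
  ring

theorem yy_swap {x : K} (hx : Pt x) (p q : Fin 3) : yy q p x = (yy p q x)⁻¹ := by
  have h1 := L_ne hx p
  have h2 := L_ne hx q
  have h3 := sgn_sq (K := K) p
  have h4 := sgn_sq (K := K) q
  have h5 := sgn_ne (K := K) p
  have h6 := sgn_ne (K := K) q
  refine eq_inv_of_mul_eq_one_left ?_
  unfold yy
  field_simp
  linear_combination (sgn K q * sgn K q) * h3 + h4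

theorem est {S : Finset (Pr K)} {w : Pr K → K} {C : ℝ} (hU : Unif S w C)
    (hJ : StmtJK S w) (hC : StmtCNT K) (hS : StmtSU K) (hCS : StmtCS) : StmtEST S := by
  classical
  intro n hn ε hε
  have hC1 := hU.one_le
  obtain ⟨D1, hD1, h1⟩ := hC (ε / 4) (by positivity)
  obtain ⟨D2, hD2, h2⟩ := hS S (ε / 4 / (2 * C + 2)) (by positivity)
  obtain ⟨D3, hD3, h3⟩ := sa_class hU hJ hC n hn (ε / 4) (by positivity)
  refine ⟨D1 * D2 * Real.exp (ε / 2 * cS S) * D3, by positivity, ?_⟩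
  intro X E P p q r F ν τ c Λ σ hX hE hpq hqr hpr hν hνX hcl htop hc hσ hΛ
  have hcs := cS_nonneg S
  set sf : K → K := fun x => yy p q x * (gen w (P x q) / gen w (P x p)) with hsf
  set Φ : K → Idl K × K := fun x => (ex (P x r) F, sf x) with hΦ
  set B : ℝ := D3 * Real.exp (ε / 4 * X) *
    Real.exp (1 / 2 * (2 * τ p + ∑ i, ν p i + max 0 (3 / 2 * ∑ i, ν p i - Λ)) +
      1 / 2 * (2 * τ q + ∑ i, ν q i + max 0 (3 / 2 * ∑ i, ν q i - Λ))) with hB
  have hB0 : 0 ≤ B := by positivity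
  have hfib : ∀ b ∈ E.image Φ, ((E.filter (fun x => Φ x = b)).card : ℝ) ≤ B := by
    intro b hb
    set E' := E.filter (fun x => Φ x = b) with hE'
    have hsub : ∀ x ∈ E', x ∈ E := fun x hx => (Finset.mem_filter.mp hx).1
    have hΦb : ∀ x ∈ E', ex (P x r) F = b.1 ∧ sf x = b.2 := by
      intro x hx
      have := (Finset.mem_filter.mp hx).2
      rw [← this]
      exact ⟨rfl, rfl⟩
    set g : K → Idl K × Idl K := fun x => (P x p, P x q) with hg
    have hinj : Set.InjOn g E' := by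
      intro x hx x' hx' hxx
      rw [hg] at hxx
      simp only [Prod.mk.injEq] at hxx
      have s1 := (hΦb x hx).2
      have s2 := (hΦb x' hx').2
      rw [← s2, hsf] at s1
      simp only at s1
      rw [← hxx.1, ← hxx.2] at s1
      have g1 : gen w (P x q) / gen w (P x p) ≠ 0 := div_ne_zero (gen_ne hU _) (gen_ne hU _)
      have s3 := mul_right_cancel₀ g1 s1
      unfold yy at s3
      have s4 := mul_left_cancel₀ (neg_ne_zero.mpr (mul_ne_zero (sgn_ne p) (sgn_ne q))) s3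
      exact L_quot_inj (hE x (hsub x hx)).1 (hE x' (hsub x' hx')).1 hpq s4
    set SA : Finset (Idl K × Idl K) :=
      ((E' ×ˢ E').filter (fun t => P t.1 q = P t.2 q)).image (fun t => (P t.1 p, P t.2 p)) with hSA
    set SB : Finset (Idl K × Idl K) :=
      ((E' ×ˢ E').filter (fun t => P t.1 p = P t.2 p)).image (fun t => (P t.1 q, P t.2 q)) with hSB
    have hcs1 := hCS (Idl K) (Idl K) (E'.image g) SA SB ?_ ?_
    rotate_left
    · intro t ht t' ht' htt
      rw [Finset.mem_image] at ht ht'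
      obtain ⟨x, hx, rfl⟩ := ht
      obtain ⟨x', hx', rfl⟩ := ht'
      rw [hSA, Finset.mem_image]
      exact ⟨(x, x'), Finset.mem_filter.mpr ⟨Finset.mem_product.mpr ⟨hx, hx'⟩, htt⟩, rfl⟩
    · intro t ht t' ht' htt
      rw [Finset.mem_image] at ht ht'
      obtain ⟨x, hx, rfl⟩ := ht
      obtain ⟨x', hx', rfl⟩ := ht'
      rw [hSB, Finset.mem_image]
      exact ⟨(x, x'), Finset.mem_filter.mpr ⟨Finset.mem_product.mpr ⟨hx, hx'⟩, htt⟩, rfl⟩
    rw [Finset.card_image_of_injOn hinj] at hcs1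
    have hA := h3 X E' P p q r F (ν p) (τ p) Λ σ b.2 b.1 SA hX (fun x hx => hE x (hsub x hx))
      hpq hqr hpr (hν p) (hνX p) (fun x hx i => hcl x (hsub x hx) p i)
      (fun x hx => htop x (hsub x hx) p) (fun x hx => hσ x (hsub x hx))
      (fun x hx => hΛ x (hsub x hx)) (fun x hx => (hΦb x hx).1) (fun x hx => (hΦb x hx).2) (by
        intro t ht
        rw [hSA, Finset.mem_image] at ht
        obtain ⟨y, hy, rfl⟩ := ht
        rw [Finset.mem_filter, Finset.mem_product] at hy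
        exact ⟨y.1, hy.1.1, y.2, hy.1.2, rfl, rfl, hy.2⟩)
    have hBb := h3 X E' P q p r F (ν q) (τ q) Λ σ (b.2)⁻¹ b.1 SB hX
      (fun x hx => hE x (hsub x hx))
      hpq.symm hpr hqr (hν q) (hνX q) (fun x hx i => hcl x (hsub x hx) q i)
      (fun x hx => htop x (hsub x hx) q) (fun x hx => hσ x (hsub x hx))
      (fun x hx => hΛ x (hsub x hx)) (fun x hx => (hΦb x hx).1) (fun x hx => by
        have s1 := (hΦb x hx).2
        rw [← s1, hsf]
        simp only
        rw [yy_swap (hE x (hsub x hx)).1, mul_inv, inv_div]) (by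
        intro t ht
        rw [hSB, Finset.mem_image] at ht
        obtain ⟨y, hy, rfl⟩ := ht
        rw [Finset.mem_filter, Finset.mem_product] at hy
        exact ⟨y.1, hy.1.1, y.2, hy.1.2, rfl, rfl, hy.2⟩)
    have h6 : ((E'.card : ℝ)) ^ 2 ≤ B ^ 2 := by
      refine hcs1.trans ((mul_le_mul hA hBb (Nat.cast_nonneg _) (by positivity)).trans
        (le_of_eq ?_))
      rw [hB]
      have e1 : Real.exp (1 / 2 * (2 * τ p + ∑ i, ν p i + max 0 (3 / 2 * ∑ i, ν p i - Λ)) +
          1 / 2 * (2 * τ q + ∑ i, ν q i + max 0 (3 / 2 * ∑ i, ν q i - Λ))) ^ 2 =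
          Real.exp (2 * τ p + ∑ i, ν p i + max 0 (3 / 2 * ∑ i, ν p i - Λ)) *
          Real.exp (2 * τ q + ∑ i, ν q i + max 0 (3 / 2 * ∑ i, ν q i - Λ)) := by
        rw [sq, ← Real.exp_add, ← Real.exp_add]
        congr 1
        ring
      rw [mul_pow, e1]
      ring
    exact (pow_le_pow_iff_left₀ (Nat.cast_nonneg _) hB0 two_ne_zero).mp h6
  have himg : ((E.image Φ).card : ℝ) ≤ (D1 * Real.exp (c + ε / 4 * (X + cS S))) *
      (D2 * Real.exp (ε / 4 * (X + cS S))) := by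
    have hsub : E.image Φ ⊆ (E.image fun x => ex (P x r) F) ×ˢ (E.image sf) := by
      intro b hb
      rw [Finset.mem_image] at hb
      obtain ⟨x, hx, rfl⟩ := hb
      rw [Finset.mem_product]
      exact ⟨Finset.mem_image.mpr ⟨x, hx, rfl⟩, Finset.mem_image.mpr ⟨x, hx, rfl⟩⟩
    have h4 : ((E.image Φ).card : ℝ) ≤ ((E.image fun x => ex (P x r) F).card : ℝ) *
        ((E.image sf).card : ℝ) := by
      have := Finset.card_le_card hsub
      rw [Finset.card_product] at this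
      exact_mod_cast this
    refine h4.trans (mul_le_mul ?_ ?_ (Nat.cast_nonneg _) (by positivity))
    · refine h1 (X + cS S) c _ (by linarith) ?_
      intro a ha
      rw [Finset.mem_image] at ha
      obtain ⟨x, hx, rfl⟩ := ha
      have h5 := len_le (hE x hx).1 (hE x hx).2.1 r
      have h6 := (hE x hx).2.2
      exact ⟨hc x hx, (len_mono (ex_le _ _)).trans (by linarith)⟩
    · have h7 := h2 ((2 * C + 2) * (X + cS S)) (E.image sf)
        (mul_nonneg (by linarith) (by linarith)) ?_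
      · have e1 : ε / 4 / (2 * C + 2) * ((2 * C + 2) * (X + cS S)) = ε / 4 * (X + cS S) := by
          have : (2 * C + 2) ≠ 0 := by linarith
          field_simp
        rwa [e1] at h7
      · intro y hy
        rw [Finset.mem_image] at hy
        obtain ⟨x, hx, rfl⟩ := hy
        refine ⟨mul_ne_zero (yy_ne (hE x hx).1 p q) (div_ne_zero (gen_ne hU _) (gen_ne hU _)),
          fun v hv => unit_fv hU (hE x hx).2.1 p q hv, fun v hv => ?_⟩
        refine (unit_spec hU (hE x hx).1 (hE x hx).2.1 p q hv).trans ?_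
        refine mul_le_mul_of_nonneg_left ?_ (by linarith)
        have h6 := (hE x hx).2.2
        linarith
  refine (fib_bound E Φ B hfib).trans ((mul_le_mul_of_nonneg_right himg hB0).trans ?_)
  rw [hB]
  set T := 1 / 2 * (2 * τ p + ∑ i, ν p i + max 0 (3 / 2 * ∑ i, ν p i - Λ)) with hT
  set T' := 1 / 2 * (2 * τ q + ∑ i, ν q i + max 0 (3 / 2 * ∑ i, ν q i - Λ)) with hT'
  have e1 : D1 * Real.exp (c + ε / 4 * (X + cS S)) * (D2 * Real.exp (ε / 4 * (X + cS S))) *
      (D3 * Real.exp (ε / 4 * X) * Real.exp (T + T')) =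
      D1 * D2 * Real.exp (ε / 2 * cS S) * D3 * Real.exp (3 * ε / 4 * X + c + T + T') := by
    have e2 : Real.exp (c + ε / 4 * (X + cS S)) * Real.exp (ε / 4 * (X + cS S)) *
        Real.exp (ε / 4 * X) * Real.exp (T + T') =
        Real.exp (ε / 2 * cS S) * Real.exp (3 * ε / 4 * X + c + T + T') := by
      rw [← Real.exp_add, ← Real.exp_add, ← Real.exp_add, ← Real.exp_add]
      congr 1
      ring
    linear_combination (D1 * D2 * D3) * e2
  rw [e1]
  refine mul_le_mul_of_nonneg_left ?_ (by positivity)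
  rw [Real.exp_le_exp]
  have : 0 ≤ ε * X := mul_nonneg hε.le hX
  linarith

end Pool.Agent.W358.AK
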